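import Mathlib

namespace Pool.Agent.Results.MP_90eaab_co.Counter

open Set

/-- `n` congruent copies of `C` cover an open set containing `C` -/
def Cov {E : Type} [MetricSpace E] (C : Set E) (n : ℕ) : Prop :=
  ∃ g : Fin n → E ≃ᵢ E, ∃ U : Set E, IsOpen U ∧ C ⊆ U ∧ U ⊆ ⋃ i, g i '' C

/-- the Newton covering number -/
noncomputable def newton {E : Type} [MetricSpace E] (C : Set E) : ℕ∞ :=
  sInf ((fun n : ℕ => (n : ℕ∞)) '' {n | Cov C n})

/-- right pyramid of height `h` over the unit `k`-cube, in dimension `k + 1` -/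
def pyr (k : ℕ) (h : ℝ) : Set (EuclideanSpace ℝ (Fin (k + 1))) :=
  convexHull ℝ ({x | x 0 = 0 ∧ ∀ i : Fin k, |x i.succ| ≤ 1 / 2} ∪ {EuclideanSpace.single 0 h})

theorem mem_pyr {k : ℕ} {h : ℝ} (hh : 0 < h) {x : EuclideanSpace ℝ (Fin (k + 1))} (h0 : 0 ≤ x 0)
    (h1 : x 0 ≤ h) (hx : ∀ i : Fin k, |x i.succ| ≤ (1 - x 0 / h) / 2) : x ∈ pyr k h := by
  rcases h1.eq_or_lt with e | h1
  · refine subset_convexHull _ _ (Or.inr ?_)
    ext i
    refine Fin.cases (by simpa using e) (fun i => ?_) i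
    have := hx i
    rw [e, div_self hh.ne', sub_self, zero_div, abs_nonpos_iff] at this
    simp [this]
  have t0 : 0 < 1 - x 0 / h := sub_pos.2 ((div_lt_one hh).2 h1)
  let y : EuclideanSpace ℝ (Fin (k + 1)) := (1 - x 0 / h)⁻¹ • (x - EuclideanSpace.single 0 (x 0))
  have hy : y ∈ pyr k h := by
    refine subset_convexHull _ _ (Or.inl ⟨by simp [y], fun i => ?_⟩)
    have : y i.succ = (1 - x 0 / h)⁻¹ * x i.succ := by simp [y]
    rw [this, abs_mul, abs_of_pos (inv_pos.2 t0), inv_mul_le_iff₀ t0]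
    linarith [hx i]
  have ha : EuclideanSpace.single 0 h ∈ pyr k h := subset_convexHull _ _ (Or.inr rfl)
  have := convex_convexHull ℝ _ hy ha t0.le (div_nonneg h0 hh.le) (by ring)
  have e : (1 - x 0 / h) • y + (x 0 / h) • EuclideanSpace.single 0 h = x := by
    simp only [y, smul_smul, mul_inv_cancel₀ t0.ne', one_smul]
    ext i
    refine Fin.cases ?_ (fun i => by simp) i
    simp [hh.ne']
  rwa [e] at this

theorem lower {k : ℕ} (hk : 0 < k) : 3 ≤ newton (pyr k (√(3 * k / 4))) := by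
  set h := √(3 * (k : ℝ) / 4) with hh
  have h2 : h ^ 2 = 3 * k / 4 := Real.sq_sqrt (by positivity)
  have dsq : ∀ x y : EuclideanSpace ℝ (Fin (k + 1)),
      dist x y = √((x 0 - y 0) ^ 2 + ∑ i : Fin k, (x i.succ - y i.succ) ^ 2) := fun x y => by
    rw [EuclideanSpace.dist_eq, Fin.sum_univ_succ]; simp only [Real.dist_eq, sq_abs]
  have bd : ∀ (f : Fin k → ℝ) (c : ℝ), (∀ i, |f i| ≤ c) → ∑ i, f i ^ 2 ≤ k * c ^ 2 := fun f c hf => by
    refine (Finset.sum_le_sum fun i _ => (sq_le_sq' (abs_le.1 (hf i)).1 (abs_le.1 (hf i)).2)).trans ?_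
    simp
  have diam : ∀ x ∈ pyr k h, ∀ y ∈ pyr k h, dist x y ≤ √k := fun x hx y hy => by
    obtain ⟨x, hx, y, hy, hd⟩ := convexHull_exists_dist_ge2 hx hy
    refine hd.trans ?_
    rw [dsq]
    apply Real.sqrt_le_sqrt
    rcases hx with ⟨a, b⟩ | rfl <;> rcases hy with ⟨c, d⟩ | rfl
    · have := bd (fun i => x i.succ - y i.succ) 1 fun i => by
        have := abs_le.1 (b i); have := abs_le.1 (d i)
        rw [abs_le]; constructor <;> linarith
      rw [a, c]; linarith
    · have := bd _ _ b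
      simp [a, h2]; linarith
    · have := bd _ _ d
      simp [c, h2]; linarith
    · simp
  refine le_sInf ?_
  rintro _ ⟨n, ⟨g, U, hU, h1, h3⟩, rfl⟩
  by_contra hn
  have hn : (n : ℕ∞) < 3 := not_le.1 hn
  have hn : n < 3 := by exact_mod_cast hn
  let b : ℝ → EuclideanSpace ℝ (Fin (k + 1)) := fun c => WithLp.toLp 2 (Fin.cons 0 fun _ => c)
  let p : Fin 3 → EuclideanSpace ℝ (Fin (k + 1)) := ![EuclideanSpace.single 0 h, b (1 / 2), b (-(1 / 2))]
  have hp : ∀ i, p i ∈ pyr k h := fun i => by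
    fin_cases i
    · exact subset_convexHull _ _ (Or.inr rfl)
    · exact subset_convexHull _ _ (Or.inl ⟨rfl, fun i => by simp [p, b]⟩)
    · exact subset_convexHull _ _ (Or.inl ⟨rfl, fun i => by simp [p, b]⟩)
  have hd : ∀ i j, i ≠ j → dist (p i) (p j) = √k := fun i j hij => by
    rw [dsq]
    congr 1
    fin_cases i <;> fin_cases j <;> first | exact absurd rfl hij | (simp [p, b, h2]; ring)
  have ev : ∀ᶠ t in nhdsWithin (1 : ℝ) (Ioi 1), ∀ i, t • p i ∈ U := by
    refine nhdsWithin_le_nhds (Filter.eventually_all.2 fun i => ?_)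
    have c : Continuous fun t : ℝ => t • p i := by fun_prop
    exact c.continuousAt.preimage_mem_nhds (hU.mem_nhds (by simpa using h1 (hp i)))
  obtain ⟨t, ht, t1⟩ := (ev.and self_mem_nhdsWithin).exists
  have t1 : 1 < t := t1
  choose f hf using fun i => mem_iUnion.1 (h3 (ht i))
  obtain ⟨i, j, hij, e⟩ := Fintype.exists_ne_map_eq_of_card_lt f (by simpa)
  obtain ⟨x, hx, ex⟩ := hf i
  obtain ⟨y, hy, ey⟩ := hf j
  have := diam x hx y hy
  rw [← (g (f i)).dist_eq, ex, e, ey, dist_smul₀, hd i j hij, Real.norm_eq_abs,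
    abs_of_pos (by linarith)] at this
  have : 0 < √(k : ℝ) := Real.sqrt_pos.2 (by exact_mod_cast hk)
  nlinarith

theorem upper {k : ℕ} (r : EuclideanSpace ℝ (Fin (k + 1)) ≃ᵢ EuclideanSpace ℝ (Fin (k + 1)))
    (hr : ∀ x, |x 0| ≤ 1 / 100 → (∀ i : Fin k, |x i.succ| ≤ 51 / 100) → r x ∈ pyr k 12) :
    newton (pyr k 12) ≤ 2 := by
  refine sInf_le ⟨2, ⟨![IsometryEquiv.addRight (EuclideanSpace.single 0 (1 / 100)), r.symm],
    {x | -(1 / 100) < x 0 ∧ x 0 < 12 + 1 / 100 ∧
      ∀ i : Fin k, |x i.succ| < (1 - (x 0 - 1 / 100) / 12) / 2}, ?_, ?_, ?_⟩, rfl⟩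
  · simp only [Set.ofPred_and, Set.ofPred_forall]
    exact (isOpen_lt (by fun_prop) (by fun_prop)).inter ((isOpen_lt (by fun_prop) (by fun_prop)).inter
      (isOpen_iInter_of_finite fun i => isOpen_lt (by fun_prop) (by fun_prop)))
  · refine convexHull_min ?_ ?_
    · rintro x (⟨a, b⟩ | rfl)
      · refine ⟨by rw [a]; norm_num, by rw [a]; norm_num, fun i => (b i).trans_lt (by rw [a]; norm_num)⟩
      · refine ⟨by simp; norm_num, by simp, fun i => by simp; norm_num⟩
    · rintro x ⟨x1, x2, x3⟩ y ⟨y1, y2, y3⟩ a b ha hb hab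
      have key : ∀ u v u' v' : ℝ, u < u' → v < v' → a * u + b * v < a * u' + b * v' := by
        intro u v u' v' h1 h2
        rcases ha.eq_or_lt with rfl | ha
        · obtain rfl : b = 1 := by linarith
          linarith
        · nlinarith
      obtain rfl : b = 1 - a := by linarith
      refine ⟨?_, ?_, fun i => ?_⟩
      · have := key _ _ _ _ x1 y1
        simp; linarith
      · have := key _ _ _ _ x2 y2
        simp; linarith
      · have h1 := key _ _ _ _ (abs_lt.1 (x3 i)).1 (abs_lt.1 (y3 i)).1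
        have h2 := key _ _ _ _ (abs_lt.1 (x3 i)).2 (abs_lt.1 (y3 i)).2
        rw [abs_lt]
        simp only [PiLp.add_apply, PiLp.smul_apply, smul_eq_mul]
        constructor <;> linarith
  · rintro x ⟨x1, x2, x3⟩
    rw [mem_iUnion]
    by_cases h : 1 / 100 ≤ x 0
    · refine ⟨0, x - EuclideanSpace.single 0 (1 / 100), mem_pyr (by norm_num) ?_ ?_ fun i => ?_, by simp⟩
      · simp; linarith
      · simp; linarith
      · simpa using (x3 i).le
    · refine ⟨1, r x, hr x (abs_le.2 ⟨by linarith, by linarith⟩) fun i => ?_, by simp⟩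
      linarith [x3 i]

noncomputable def r1 : EuclideanSpace ℝ (Fin 2) ≃ᵢ EuclideanSpace ℝ (Fin 2) where
  toFun x := !₂[x 1 + 1, x 0]
  invFun y := !₂[y 1, y 0 - 1]
  left_inv x := by ext i; fin_cases i <;> simp
  right_inv x := by ext i; fin_cases i <;> simp
  isometry_toFun := Isometry.of_dist_eq fun x y => by
    simp only [EuclideanSpace.dist_eq, Fin.sum_univ_two, Real.dist_eq, sq_abs]
    congr 1; simp; ring

noncomputable def r2 : EuclideanSpace ℝ (Fin 3) ≃ᵢ EuclideanSpace ℝ (Fin 3) where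
  toFun x := !₂[x 1 + 1, (4 * x 2 + 3 * x 0) / 5, (3 * x 2 - 4 * x 0) / 5]
  invFun y := !₂[(3 * y 1 - 4 * y 2) / 5, y 0 - 1, (4 * y 1 + 3 * y 2) / 5]
  left_inv x := by ext i; fin_cases i <;> simp <;> ring
  right_inv x := by ext i; fin_cases i <;> simp <;> ring
  isometry_toFun := Isometry.of_dist_eq fun x y => by
    simp only [EuclideanSpace.dist_eq, Fin.sum_univ_three, Real.dist_eq, sq_abs]
    congr 1; simp; ring

theorem result : ∀ k ∈ ({1, 2} : Set ℕ), ∃ h h' : ℝ, 0 < h ∧ 0 < h' ∧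
    newton (pyr k h) ≤ 2 ∧ 3 ≤ newton (pyr k h') ∧ newton (pyr k h) ≠ newton (pyr k h') := by
  suffices H : ∀ k ∈ ({1, 2} : Set ℕ), ∃ h h' : ℝ, 0 < h ∧ 0 < h' ∧
      newton (pyr k h) ≤ 2 ∧ 3 ≤ newton (pyr k h') by
    intro k hk
    obtain ⟨h, h', a, b, c, d⟩ := H k hk
    exact ⟨h, h', a, b, c, d, (c.trans_lt (lt_of_lt_of_le (by norm_num) d)).ne⟩
  rintro k (rfl | rfl)
  · refine ⟨12, _, by norm_num, by positivity, upper r1 fun x a b => ?_, lower one_pos⟩
    have a := abs_le.1 a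
    have b : |x 1| ≤ _ := b 0
    have b := abs_le.1 b
    refine mem_pyr (by norm_num) ?_ ?_ fun i => ?_
    · show 0 ≤ x 1 + 1; linarith
    · show x 1 + 1 ≤ 12; linarith
    · fin_cases i
      show |x 0| ≤ (1 - (x 1 + 1) / 12) / 2
      rw [abs_le]; constructor <;> linarith
  · refine ⟨12, _, by norm_num, by positivity, upper r2 fun x a b => ?_, lower two_pos⟩
    have a := abs_le.1 a
    have c : |x 2| ≤ _ := b 1
    have b : |x 1| ≤ _ := b 0
    have b := abs_le.1 b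
    have c := abs_le.1 c
    refine mem_pyr (by norm_num) ?_ ?_ fun i => ?_
    · show 0 ≤ x 1 + 1; linarith
    · show x 1 + 1 ≤ 12; linarith
    · fin_cases i
      · show |(4 * x 2 + 3 * x 0) / 5| ≤ (1 - (x 1 + 1) / 12) / 2
        rw [abs_le]; constructor <;> linarith
      · show |(3 * x 2 - 4 * x 0) / 5| ≤ (1 - (x 1 + 1) / 12) / 2
        rw [abs_le]; constructor <;> linarith

end Pool.Agent.Results.MP_90eaab_co.Counter
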